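import Mathlib

/-!
# Project RE: the product measure, resampling of one digit

`mu p` is the law of a sequence of independent digits, the digit `k` being `true` with
probability `p k`. `T p k F` is the average of `F` over the digit `k`. `integral_T`: the
integral of `F` is the integral of `T p k F`.
-/

namespace Pool.Agent.Helper32.RE

open MeasureTheory ProbabilityTheory

/-- The law of independent digits, the digit `k` is `true` with probability `p k`. -/
noncomputable def mu (p : ℕ → unitInterval) : Measure (ℕ → Bool) :=
  Measure.infinitePi (fun k => bernoulliMeasure true false (p k))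

instance (p : ℕ → unitInterval) : IsProbabilityMeasure (mu p) := by
  unfold mu; infer_instance

/-- Average over the digit `k`. -/
noncomputable def T (p : ℕ → unitInterval) (k : ℕ) {E : Type*} [AddCommGroup E] [Module ℝ E]
    (F : (ℕ → Bool) → E) (w : ℕ → Bool) : E :=
  (1 - (p k : ℝ)) • F (Function.update w k false) + (p k : ℝ) • F (Function.update w k true)

theorem map_update (p : ℕ → unitInterval) (k : ℕ) :
    ((bernoulliMeasure true false (p k)).prod (mu p)).map
      (fun z : Bool × (ℕ → Bool) => Function.update z.2 k z.1) = mu p := by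
  classical
  have hmeas : Measurable (fun z : Bool × (ℕ → Bool) => Function.update z.2 k z.1) := by
    refine measurable_pi_iff.mpr fun i => ?_
    by_cases h : i = k
    · subst h
      simpa using measurable_fst
    · simp only [Function.update_of_ne h]
      exact (measurable_pi_apply i).comp measurable_snd
  refine Measure.eq_infinitePi _ fun s t ht => ?_
  rw [Measure.map_apply hmeas (MeasurableSet.pi s.countable_toSet fun i _ => ht i)]
  have hpre : (fun z : Bool × (ℕ → Bool) => Function.update z.2 k z.1) ⁻¹' (Set.pi s t) =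
      (if k ∈ s then t k else Set.univ) ×ˢ (Set.pi (s.erase k : Finset ℕ) t) := by
    ext z
    simp only [Set.mem_preimage, Set.mem_pi, Set.mem_prod, Finset.mem_coe, Finset.mem_erase]
    constructor
    · intro h
      refine ⟨?_, fun i hi => ?_⟩
      · split_ifs with hk
        · simpa using h k hk
        · trivial
      · have := h i hi.2
        rwa [Function.update_of_ne hi.1] at this
    · rintro ⟨h1, h2⟩ i hi
      by_cases hik : i = k
      · subst hik
        rw [if_pos hi] at h1
        simpa using h1
      · rw [Function.update_of_ne hik]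
        exact h2 i ⟨hik, hi⟩
  rw [hpre, Measure.prod_prod, mu, Measure.infinitePi_pi _ (fun i _ => ht i)]
  by_cases hk : k ∈ s
  · rw [if_pos hk, ← Finset.mul_prod_erase s _ hk]
  · rw [if_neg hk, measure_univ, one_mul, Finset.erase_eq_of_notMem hk]

theorem integral_T {E : Type*} [NormedAddCommGroup E] [NormedSpace ℝ E] [CompleteSpace E]
    (p : ℕ → unitInterval) (k : ℕ) (F : (ℕ → Bool) → E) (hF : StronglyMeasurable F)
    (C : ℝ) (hC : ∀ w, ‖F w‖ ≤ C) :
    ∫ w, F w ∂(mu p) = ∫ w, T p k F w ∂(mu p) := by
  have hmeas : Measurable (fun z : Bool × (ℕ → Bool) => Function.update z.2 k z.1) := by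
    refine measurable_pi_iff.mpr fun i => ?_
    by_cases h : i = k
    · subst h
      simpa using measurable_fst
    · simp only [Function.update_of_ne h]
      exact (measurable_pi_apply i).comp measurable_snd
  have hup : ∀ b : Bool, Measurable (fun w : ℕ → Bool => Function.update w k b) := fun b =>
    hmeas.comp (measurable_const.prodMk measurable_id)
  conv_lhs => rw [← map_update p k]
  rw [integral_map hmeas.aemeasurable hF.aestronglyMeasurable]
  have hint : Integrable (fun z : Bool × (ℕ → Bool) => F (Function.update z.2 k z.1))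
      ((bernoulliMeasure true false (p k)).prod (mu p)) := by
    refine Integrable.of_bound (hF.comp_measurable hmeas).aestronglyMeasurable C ?_
    exact Filter.Eventually.of_forall fun z => hC _
  rw [integral_prod _ hint, integral_bernoulliMeasure]
  have hi : ∀ b : Bool, Integrable (fun w : ℕ → Bool => F (Function.update w k b)) (mu p) := by
    intro b
    refine Integrable.of_bound (hF.comp_measurable (hup b)).aestronglyMeasurable C ?_
    exact Filter.Eventually.of_forall fun z => hC _
  have h1 : ∫ w, T p k F w ∂(mu p) = (1 - (p k : ℝ)) • ∫ w, F (Function.update w k false) ∂(mu p) +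
      (p k : ℝ) • ∫ w, F (Function.update w k true) ∂(mu p) := by
    unfold T
    rw [← integral_smul, ← integral_smul]
    exact integral_add ((hi false).smul (1 - (p k : ℝ))) ((hi true).smul (p k : ℝ))
  rw [h1, add_comm]

theorem measurable_update' (k : ℕ) (b : Bool) :
    Measurable (fun w : ℕ → Bool => Function.update w k b) := by
  refine measurable_pi_iff.mpr fun i => ?_
  by_cases h : i = k
  · subst h
    simp
  · simp only [Function.update_of_ne h]
    exact measurable_pi_apply i

theorem T_meas {E : Type*} [NormedAddCommGroup E] [NormedSpace ℝ E]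
    (p : ℕ → unitInterval) (k : ℕ) (F : (ℕ → Bool) → E) (hF : StronglyMeasurable F) :
    StronglyMeasurable (T p k F) :=
  ((hF.comp_measurable (measurable_update' k false)).const_smul _).add
    ((hF.comp_measurable (measurable_update' k true)).const_smul _)

theorem T_norm_le {E : Type*} [NormedAddCommGroup E] [NormedSpace ℝ E]
    (p : ℕ → unitInterval) (k : ℕ) (F : (ℕ → Bool) → E) (C : ℝ) (hC : ∀ w, ‖F w‖ ≤ C)
    (w : ℕ → Bool) : ‖T p k F w‖ ≤ C := by
  have h0 : 0 ≤ (p k : ℝ) := (p k).2.1
  have h1 : 0 ≤ 1 - (p k : ℝ) := by linarith [(p k).2.2]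
  calc ‖T p k F w‖ ≤ ‖(1 - (p k : ℝ)) • F (Function.update w k false)‖ +
        ‖(p k : ℝ) • F (Function.update w k true)‖ := norm_add_le _ _
    _ = (1 - (p k : ℝ)) * ‖F (Function.update w k false)‖ +
        (p k : ℝ) * ‖F (Function.update w k true)‖ := by
        rw [norm_smul, norm_smul, Real.norm_of_nonneg h0, Real.norm_of_nonneg h1]
    _ ≤ (1 - (p k : ℝ)) * C + (p k : ℝ) * C :=
        add_le_add (mul_le_mul_of_nonneg_left (hC _) h1) (mul_le_mul_of_nonneg_left (hC _) h0)
    _ = C := by ring

/-- Iterated averages, `TL p [k₁, ..., k_r] F = T k₁ (T k₂ (... (T k_r F)))`. -/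
noncomputable def TL (p : ℕ → unitInterval) {E : Type*} [AddCommGroup E] [Module ℝ E]
    (l : List ℕ) (F : (ℕ → Bool) → E) : (ℕ → Bool) → E :=
  l.foldr (fun k G => T p k G) F

@[simp] theorem TL_nil (p : ℕ → unitInterval) {E : Type*} [AddCommGroup E] [Module ℝ E]
    (F : (ℕ → Bool) → E) : TL p [] F = F := rfl

@[simp] theorem TL_cons (p : ℕ → unitInterval) {E : Type*} [AddCommGroup E] [Module ℝ E]
    (k : ℕ) (l : List ℕ) (F : (ℕ → Bool) → E) : TL p (k :: l) F = T p k (TL p l F) := rfl

theorem TL_append (p : ℕ → unitInterval) {E : Type*} [AddCommGroup E] [Module ℝ E]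
    (l l' : List ℕ) (F : (ℕ → Bool) → E) : TL p (l ++ l') F = TL p l (TL p l' F) := by
  unfold TL
  rw [List.foldr_append]

theorem TL_meas {E : Type*} [NormedAddCommGroup E] [NormedSpace ℝ E]
    (p : ℕ → unitInterval) (l : List ℕ) (F : (ℕ → Bool) → E) (hF : StronglyMeasurable F) :
    StronglyMeasurable (TL p l F) := by
  induction l with
  | nil => exact hF
  | cons k l ih => exact T_meas p k _ ih

theorem TL_norm_le {E : Type*} [NormedAddCommGroup E] [NormedSpace ℝ E]
    (p : ℕ → unitInterval) (l : List ℕ) (F : (ℕ → Bool) → E) (C : ℝ) (hC : ∀ w, ‖F w‖ ≤ C)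
    (w : ℕ → Bool) : ‖TL p l F w‖ ≤ C := by
  induction l generalizing w with
  | nil => exact hC w
  | cons k l ih => exact T_norm_le p k _ C ih w

/-- The integral of `F` is the integral of every iterated average of `F`. -/
theorem integral_TL {E : Type*} [NormedAddCommGroup E] [NormedSpace ℝ E] [CompleteSpace E]
    (p : ℕ → unitInterval) (l : List ℕ) (F : (ℕ → Bool) → E) (hF : StronglyMeasurable F)
    (C : ℝ) (hC : ∀ w, ‖F w‖ ≤ C) :
    ∫ w, F w ∂(mu p) = ∫ w, TL p l F w ∂(mu p) := by
  induction l with
  | nil => rfl
  | cons k l ih =>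
    rw [ih, TL_cons]
    exact integral_T p k _ (TL_meas p l F hF) C (TL_norm_le p l F C hC)

end Pool.Agent.Helper32.RE
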